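import Pool.Agent.Run7.h230.Conv

set_option autoImplicit false

/-! The fundamental group of every irreducible higher dimensional graph manifold is
semihyperbolic. -/

open Run7.h230

/-- Let `M` be the gluing data of an irreducible higher dimensional graph manifold of dimension
`n`. Its fundamental group is semihyperbolic. -/
theorem Pool.Agent.Results.MP_77db41_gt.SemihyperbolicHDG.result (n : ℕ) (M : HDG.GlueData n)
    (hM : M.IsHDG) (hI : M.Irreducible) (i : M.I) : Semi.Semihyperbolic (M.Pi1 i) :=
  main hM hI i
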